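import Pool.Agent.R37.UltraRay

/-!
# MP_22aefb_co, Question 1: yes

For every `r ≥ 4` there is a constant `c_r` such that every finite `C_{2r}`-subgraph-free graph of
diameter at most `3` has treedepth at most `c_r`.

Proof.  Otherwise there are such graphs with arbitrarily long paths, and their ultraproduct is an
infinite `C_{2r}`-subgraph-free graph of diameter at most `3` containing a ray
`f 0, f 1, f 2, …`.  Fix a non-principal ultrafilter on `ℕ`; for every position `a` look at the
family `f (k + a)`.  Either some vertex is adjacent to almost all members of the family (a hub), or
almost all pairs of members are joined by robust paths of all lengths `3n`, `n ≥ 2` (all other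
generic behaviours of the connecting paths of length `2` or `3` give a `C_{2r}`).  Combining hubs,
robust paths and segments of the ray gives a `C_{2r}` for every `r ≥ 4`.
-/

set_option autoImplicit false

namespace Pool.Agent.Results.MP_22aefb_co.EvenCycleDiameterThree

open Pool.Agent.R37

/-- **Q1.** For every `r ≥ 4`, finite `C_{2r}`-subgraph-free graphs of diameter at most `3` have
bounded treedepth. -/
theorem result : ∀ r : ℕ, 4 ≤ r → ∃ c : ℕ, ∀ (V : Type) [Finite V] (G : SimpleGraph V),
    G.ediam ≤ 3 → (SimpleGraph.cycleGraph (2 * r)).Free G → TreedepthLE G c :=
  fun r hr => GenLink.treedepth_bound r hr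

end Pool.Agent.Results.MP_22aefb_co.EvenCycleDiameterThree
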